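import Pool.Agent.R842.Orb.Cone

set_option autoImplicit false

namespace Pool.Agent.Results.MP_b7123c_al.NoneInLengthThree

open Pool.Agent.R842.Orb
open scoped commutatorElement

universe u

/-! ### Definitions of the statement -/

/-- `r` is a total order on the group `G`, invariant under multiplication on both sides. -/
structure IsBiOrder {G : Type u} [Group G] (r : G → G → Prop) : Prop where
  refl : ∀ a, r a a
  trans : ∀ a b c, r a b → r b c → r a c
  antisymm : ∀ a b, r a b → r b a → a = b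
  total : ∀ a b, r a b ∨ r b a
  mul_left : ∀ a b c, r a b → r (c * a) (c * b)
  mul_right : ∀ a b c, r a b → r (a * c) (b * c)

/-- `G` admits a bi-invariant total order. -/
def LinearlyOrderable (G : Type u) [Group G] : Prop := ∃ r : G → G → Prop, IsBiOrder r

/-- `H` is convex for at least one bi-invariant total order of `G`. -/
def RelativelyConvex {G : Type u} [Group G] (H : Subgroup G) : Prop :=
  ∃ r : G → G → Prop, IsBiOrder r ∧
    ∀ h₁ ∈ H, ∀ h₂ ∈ H, ∀ g : G, r h₁ g → r g h₂ → g ∈ H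

/-! ### The isolator of the commutator subgroup -/

section iso

variable (G : Type u) [Group G]

/-- the elements with a power in the commutator subgroup -/
def Iso : Subgroup G := (CommGroup.torsion (Abelianization G)).comap Abelianization.of

variable {G}

lemma mem_Iso {g : G} : g ∈ Iso G ↔ ∃ n : ℕ, n ≠ 0 ∧ g ^ n ∈ commutator G := by
  unfold Iso
  rw [Subgroup.mem_comap, CommGroup.mem_torsion, isOfFinOrder_iff_pow_eq_one]
  constructor
  · rintro ⟨n, hn, h⟩
    refine ⟨n, hn.ne', ?_⟩
    rw [← map_pow] at h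
    exact (QuotientGroup.eq_one_iff _).mp h
  · rintro ⟨n, hn, h⟩
    refine ⟨n, Nat.pos_of_ne_zero hn, ?_⟩
    rw [← map_pow]
    exact (QuotientGroup.eq_one_iff _).mpr h

lemma comm_le_Iso : commutator G ≤ Iso G := fun g hg => mem_Iso.mpr ⟨1, one_ne_zero, by simpa⟩

lemma comm_mem (a b : G) : a * b * a⁻¹ * b⁻¹ ∈ commutator G := by
  have := Subgroup.commutator_mem_commutator (Subgroup.mem_top a) (Subgroup.mem_top b)
  rwa [commutatorElement_def] at this

lemma comm2_mem {a b : G} (ha : a ∈ commutator G) (hb : b ∈ commutator G) :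
    a * b * a⁻¹ * b⁻¹ ∈ derivedSeries G 2 := by
  have := Subgroup.commutator_mem_commutator ha hb
  rw [commutatorElement_def] at this
  rw [derivedSeries_succ, derivedSeries_one]
  exact this

lemma Iso_normal : (Iso G).Normal := by
  unfold Iso; infer_instance

lemma cone_Iso : ∃ P, RelCone (Iso G) P := by
  apply cone_of_isolated
  · intro a b; exact comm_le_Iso (comm_mem a b)
  · intro a n hn h
    obtain ⟨m, hm, h⟩ := mem_Iso.mp h
    rw [← pow_mul] at h
    exact mem_Iso.mpr ⟨n * m, mul_ne_zero hn hm, h⟩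

end iso

section ord

variable {G : Type u} [Group G] [LinearOrder G] [MulLeftMono G] [MulRightMono G]

lemma cone_of_cvx {L : Subgroup G} (hL : L.Normal) (hc : Cvx L) : ∃ P, RelCone L P := by
  refine ⟨{x | 1 < x ∧ x ∉ L}, ?_, ?_, ?_, ?_, ?_⟩
  · rintro a ⟨ha, ha'⟩ b ⟨hb, hb'⟩
    have h1 : a < a * b := lt_mul_of_one_lt_right' a hb
    exact ⟨ha.trans h1, fun h => ha' (hc a (a * b) ha.le h1.le h)⟩
  · rintro a ⟨ha, ha'⟩ g
    refine ⟨?_, fun h => ha' ?_⟩
    · have := mul_lt_mul_left (mul_lt_mul_right ha g) g⁻¹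
      rwa [mul_one, mul_inv_cancel] at this
    · have := hL.conj_mem _ h g⁻¹
      rwa [show g⁻¹ * (g * a * g⁻¹) * g⁻¹⁻¹ = a by group] at this
  · intro a
    by_cases ha : a ∈ L
    · exact Or.inl ha
    · right
      rcases lt_trichotomy 1 a with h | h | h
      · left; exact ⟨h, ha⟩
      · exact absurd (h ▸ L.one_mem) ha
      · right
        exact ⟨one_lt_inv'.mpr h, fun h' => ha (by simpa using L.inv_mem h')⟩
  · rintro a ⟨ha, -⟩ ⟨hb, -⟩
    exact absurd (one_lt_inv'.mp hb) (not_lt.mpr ha.le)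
  · rintro a ⟨-, ha⟩; exact ha

lemma cvx_isolated {L : Subgroup G} (hc : Cvx L) {g : G} {n : ℕ} (hn : n ≠ 0)
    (h : g ^ n ∈ L) : g ∈ L := by
  have key : ∀ g : G, 1 ≤ g → g ^ n ∈ L → g ∈ L := by
    intro g h1 h
    refine hc g (g ^ n) h1 ?_ h
    obtain ⟨m, rfl⟩ := Nat.exists_eq_succ_of_ne_zero hn
    rw [Nat.succ_eq_add_one, pow_succ]
    exact le_mul_of_one_le_left' (one_le_pow_of_one_le' h1 m)
  rcases le_total 1 g with h1 | h1
  · exact key g h1 h
  · have := key g⁻¹ (one_le_inv'.mpr h1) (by rw [inv_pow]; exact L.inv_mem h)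
    simpa using L.inv_mem this

lemma ab_of_der {A : Subgroup G} (h : ⁅A, A⁆ = ⊥) : ∀ a ∈ A, ∀ b ∈ A, a * b = b * a := by
  intro a ha b hb
  have h1 := Subgroup.commutator_mem_commutator ha hb
  rw [h, Subgroup.mem_bot, commutatorElement_eq_one_iff_mul_comm] at h1
  exact h1

/-- An ordered group of derived length at most `3` without proper normal relatively convex
subgroups is abelian. -/
theorem comm_of_simple (huniq : ∀ N : Subgroup G, N.Normal → (∃ P, RelCone N P) → N = ⊥ ∨ N = ⊤)
    (h3 : derivedSeries G 3 = ⊥) : commutator G = ⊥ := by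
  by_contra hne
  rcases huniq _ Iso_normal cone_Iso with hI | hI
  · apply hne
    rw [eq_bot_iff, ← hI]; exact comm_le_Iso
  · have hinv : ∀ L : Subgroup G, Cvx L → L ≤ ⊤ → (∀ k ∈ commutator G, cj k L = L) →
        L = ⊥ ∨ L = ⊤ := by
      intro L hL _ hk
      have hn : L.Normal := by
        apply normal_of_cj
        intro g
        obtain ⟨n, hn, h⟩ := mem_Iso.mp (show g ∈ Iso G by rw [hI]; exact Subgroup.mem_top g)
        exact cj_pow_fix hL hn (hk _ h)
      exact huniq L hn (cone_of_cvx hn hL)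
    have hcomm : ∀ x y : G, x * y = y * x := by
      by_cases h2 : derivedSeries G 2 = ⊥
      · have hab : ∀ a ∈ commutator G, ∀ b ∈ commutator G, a * b = b * a := by
          apply ab_of_der
          rw [derivedSeries_succ, derivedSeries_one] at h2
          exact h2
        intro x y
        refine comm_of_no_inv (commutator G) ⊤ inferInstance (fun _ _ _ _ _ => Subgroup.mem_top _)
          hab hne le_top le_top ?_ hinv (Subgroup.mem_top x) (Subgroup.mem_top y)
        intro x _ g h _; exact h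
      · intro x y
        refine comm_of_no_inv (derivedSeries G 2) ⊤ inferInstance
          (fun _ _ _ _ _ => Subgroup.mem_top _)
          (ab_of_der (by rw [← derivedSeries_succ]; exact h3)) h2 le_top le_top ?_ hinv
          (Subgroup.mem_top x) (Subgroup.mem_top y)
        intro x hx g _ hg
        exact comm2_mem hx hg
    apply hne
    rw [commutator_def, Subgroup.commutator_def, eq_bot_iff, Subgroup.closure_le]
    rintro _ ⟨a, -, b, -, rfl⟩
    rw [SetLike.mem_coe, Subgroup.mem_bot, commutatorElement_eq_one_iff_mul_comm]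
    exact hcomm a b

/-- The first application: commutators of `H` centralise `A`. -/
lemma step_A {H D A : Subgroup G} (S : Stp H D) (hA : A.Normal) (hAH : A ≤ H)
    (hAab : ∀ a ∈ A, ∀ b ∈ A, a * b = b * a)
    (hCA : ∀ x ∈ commutator G, ∀ y ∈ commutator G, x * y * x⁻¹ * y⁻¹ ∈ A)
    (hiso : ∀ h ∈ H, ∃ n : ℕ, n ≠ 0 ∧ h ^ n ∈ commutator G) (hCH : commutator G ≤ H) :
    ∀ a ∈ H, ∀ b ∈ H, a * b * a⁻¹ * b⁻¹ ∈ NN H A := by
  have h1 : ∀ q ∈ H, ∀ w ∈ commutator G, q * w * q⁻¹ * w⁻¹ ∈ NN H A := by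
    intro q hq w hw
    refine mem_NN.mpr ⟨S.hGH q w, fun a ha => ?_⟩
    set k := q * w * q⁻¹ * w⁻¹ with hk
    have h1 : k * a * k⁻¹ * a⁻¹ = 1 := by
      apply S.hI
      intro g
      obtain ⟨g₁, hg₁⟩ := S.hU q hq
      set x := g⁻¹ * g₁ with hx
      set q' := x * q * x⁻¹ with hq'
      have hq'D : q' ∈ cj g D := by
        rw [mem_cj] at *
        rwa [show g * q' * g⁻¹ = g₁ * q * g₁⁻¹ by rw [hq', hx]; group]
      set w' := q⁻¹ * q' with hw'
      have hw'C : w' ∈ commutator G := by
        have := comm_mem q⁻¹ x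
        rwa [show q⁻¹ * x * q⁻¹⁻¹ * x⁻¹ = w' by rw [hw', hq']; group] at this
      set d := q' * w * q'⁻¹ * w⁻¹ with hd
      have hdD : d ∈ cj g D := by
        have h2 := S.normalize (hCH hw) ((cj g D).inv_mem hq'D)
        have h3 := (cj g D).mul_mem hq'D h2
        rwa [show q' * (w * q'⁻¹ * w⁻¹) = d by rw [hd]; group] at h3
      set α := q * (w' * w * w'⁻¹ * w⁻¹) * q⁻¹ with hα
      have hαA : α ∈ A := hA.conj_mem _ (hCA _ hw'C _ hw) q
      have hdk : k = α⁻¹ * d := by
        rw [hα, hd, hw', hk]; group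
      have heq : k * a * k⁻¹ * a⁻¹ = α⁻¹ * (d * a * d⁻¹ * a⁻¹) * α⁻¹⁻¹ := by
        rw [hdk]
        calc α⁻¹ * d * a * (α⁻¹ * d)⁻¹ * a⁻¹
            = α⁻¹ * (d * a * d⁻¹ * a⁻¹) * (a * α) * a⁻¹ := by group
          _ = α⁻¹ * (d * a * d⁻¹ * a⁻¹) * (α * a) * a⁻¹ := by rw [hAab a ha α hαA]
          _ = α⁻¹ * (d * a * d⁻¹ * a⁻¹) * α⁻¹⁻¹ := by group
      rw [heq]
      apply S.normalize (H.inv_mem (hAH hαA))
      have h2 := S.normalize (hAH ha) ((cj g D).inv_mem hdD)
      have h3 := (cj g D).mul_mem hdD h2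
      rwa [show d * (a * d⁻¹ * a⁻¹) = d * a * d⁻¹ * a⁻¹ by group] at h3
    calc k * a = (k * a * k⁻¹ * a⁻¹) * (a * k) := by group
      _ = a * k := by rw [h1, one_mul]
  intro q hq q' hq'
  haveI := NN_normal S.hH hA
  obtain ⟨n, hn, hnC⟩ := hiso q' hq'
  set k := q * q' * q⁻¹ * q'⁻¹ with hk
  have hmk : ∀ a b : G, a * b * a⁻¹ * b⁻¹ ∈ NN H A →
      Commute (QuotientGroup.mk' (NN H A) a) (QuotientGroup.mk' (NN H A) b) := by
    intro a b h
    show _ * _ = _ * _
    rw [← map_mul, ← map_mul]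
    have h2 : QuotientGroup.mk' (NN H A) (a * b * a⁻¹ * b⁻¹) = 1 :=
      (QuotientGroup.eq_one_iff _).mpr h
    have h3 : a * b = (a * b * a⁻¹ * b⁻¹) * (b * a) := by group
    rw [h3, map_mul, h2, one_mul]
  have hkC : k ∈ commutator G := comm_mem q q'
  have hc1 : Commute (QuotientGroup.mk' (NN H A) q') (QuotientGroup.mk' (NN H A) k) :=
    hmk _ _ (h1 q' hq' k hkC)
  have hc2 : Commute (QuotientGroup.mk' (NN H A) q) (QuotientGroup.mk' (NN H A) (q' ^ n)) :=
    hmk _ _ (h1 q hq _ hnC)
  have hkn : QuotientGroup.mk' (NN H A) (k ^ n) = 1 := by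
    have h2 : QuotientGroup.mk' (NN H A) k * QuotientGroup.mk' (NN H A) q' =
        QuotientGroup.mk' (NN H A) q * QuotientGroup.mk' (NN H A) q' *
          (QuotientGroup.mk' (NN H A) q)⁻¹ := by
      rw [← map_mul, ← map_mul, ← map_inv, ← map_mul, hk]
      congr 1; group
    have h3 : (QuotientGroup.mk' (NN H A) k * QuotientGroup.mk' (NN H A) q') ^ n =
        QuotientGroup.mk' (NN H A) q' ^ n := by
      rw [h2, conj_pow, ← map_pow, hc2.eq, mul_inv_cancel_right]
    rw [hc1.symm.mul_pow] at h3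
    rw [map_pow]
    exact mul_eq_right.mp h3
  have hkN : k ^ n ∈ NN H A := (QuotientGroup.eq_one_iff _).mp hkn
  refine mem_NN.mpr ⟨S.hGH q q', fun x hx => ?_⟩
  exact comm_of_pow hn ((mem_NN.mp hkN).2 x hx)

/-- roots modulo the centre -/
lemma root_centre {H : Subgroup G} {q y : G} (hq : q ∈ H) (hy : y ∈ H) {n : ℕ} (hn : n ≠ 0)
    (h : y * q ^ n * y⁻¹ * (q ^ n)⁻¹ ∈ NN H H) : y * q * y⁻¹ * q⁻¹ ∈ NN H H := by
  set z := y * q ^ n * y⁻¹ * (q ^ n)⁻¹ with hz
  set q' := y * q * y⁻¹ with hq'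
  have hq'H : q' ∈ H := H.mul_mem (H.mul_mem hy hq) (H.inv_mem hy)
  have h1 : q' ^ n = z * q ^ n := by
    rw [hq', conj_pow, hz]; group
  have h2 : z * q' = q' * z := (mem_NN.mp h).2 q' hq'H
  have h3 : q ^ n * q' = q' * q ^ n := by
    have h4 : q ^ n = z⁻¹ * q' ^ n := by rw [h1]; group
    have h5 : q' ^ n * q' = q' * q' ^ n := by rw [← pow_succ, ← pow_succ']
    have h6 : z⁻¹ * q' = q' * z⁻¹ := by
      rw [inv_mul_eq_iff_eq_mul, ← mul_assoc, h2, mul_inv_cancel_right]
    rw [h4, mul_assoc, h5, ← mul_assoc, h6, mul_assoc]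
  have h4 : q * q' = q' * q := comm_of_pow hn h3
  have h5 : (q' * q⁻¹) ^ n = z := by
    have hc : Commute q' q⁻¹ := by
      apply Commute.inv_right
      exact h4.symm
    rw [hc.mul_pow, h1, inv_pow, mul_inv_cancel_right]
  refine mem_NN.mpr ⟨H.mul_mem hq'H (H.inv_mem hq), fun x hx => ?_⟩
  apply comm_of_pow hn
  rw [h5]
  exact (mem_NN.mp h).2 x hx

/-- The main step. -/
theorem main_ord (H : Subgroup G) (hH : H.Normal) (hHc : Cvx H) (hne : H ≠ ⊥) (hnt : H ≠ ⊤)
    (hCH : commutator G ≤ H)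
    (huniq : ∀ N : Subgroup G, N.Normal → (∃ P, RelCone N P) → N = ⊥ ∨ N = H ∨ N = ⊤)
    (h3 : derivedSeries G 3 = ⊥) (h2 : derivedSeries G 2 ≠ ⊥) : False := by
  have hA : (derivedSeries G 2).Normal := inferInstance
  have hAC : derivedSeries G 2 ≤ commutator G := by
    rw [derivedSeries_succ, derivedSeries_one]
    exact Subgroup.commutator_le_left _ _
  have hAH : derivedSeries G 2 ≤ H := hAC.trans hCH
  have hAab := ab_of_der (A := derivedSeries G 2) (by rw [← derivedSeries_succ]; exact h3)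
  have hCne : commutator G ≠ ⊥ := by
    intro h
    apply h2
    rw [eq_bot_iff, ← h]; exact hAC
  have hiso : ∀ h ∈ H, ∃ n : ℕ, n ≠ 0 ∧ h ^ n ∈ commutator G := by
    have hIH : Iso G = H := by
      have hle : Iso G ≤ H := by
        intro g hg
        obtain ⟨n, hn, h⟩ := mem_Iso.mp hg
        exact cvx_isolated hHc hn (hCH h)
      rcases huniq _ Iso_normal cone_Iso with h | h | h
      · exfalso
        apply hCne
        rw [eq_bot_iff, ← h]; exact comm_le_Iso
      · exact h
      · exfalso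
        apply hnt
        rw [eq_top_iff, ← h]; exact hle
    intro h hh
    rw [← hIH] at hh
    exact mem_Iso.mp hh
  -- an abelian `H` is impossible
  have hnab : ¬ ∀ x ∈ H, ∀ y ∈ H, x * y = y * x := by
    intro h
    apply h2
    rw [derivedSeries_succ, derivedSeries_one, Subgroup.commutator_def, eq_bot_iff,
      Subgroup.closure_le]
    rintro _ ⟨a, ha, b, hb, rfl⟩
    rw [SetLike.mem_coe, Subgroup.mem_bot, commutatorElement_eq_one_iff_mul_comm]
    exact h a (hCH ha) b (hCH hb)
  -- the convex subgroup `D`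
  obtain ⟨D, hDc, hDle, hDk, hDbot, hDH⟩ : ∃ D : Subgroup G, Cvx D ∧ D ≤ H ∧
      (∀ k ∈ commutator G, cj k D = D) ∧ D ≠ ⊥ ∧ D ≠ H := by
    by_contra hcon
    push Not at hcon
    apply hnab
    intro x hx y hy
    refine comm_of_no_inv (derivedSeries G 2) H hA hHc hAab h2 hAH hCH ?_ ?_ hx hy
    · intro x hx g _ hg
      exact comm2_mem hx hg
    · intro L hL hle hk
      by_cases hb : L = ⊥
      · exact Or.inl hb
      · exact Or.inr (hcon L hL hle hk hb)
  have hHcone := cone_of_cvx hH hHc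
  have hDHfix : ∀ h ∈ H, cj h D = D := by
    intro h hh
    obtain ⟨n, hn, hC⟩ := hiso h hh
    exact cj_pow_fix hDc hn (hDk _ hC)
  have hcjH : ∀ g, cj g D ≤ H := by
    intro g
    have := cj_mono (g := g) hDle
    rwa [cj_normal hH] at this
  have hfamc : ∀ L ∈ Set.range (fun g => cj g D), Cvx L := by
    rintro _ ⟨g, rfl⟩; exact cvx_cj hDc
  have hfamne : (Set.range (fun g => cj g D)).Nonempty := ⟨_, 1, rfl⟩
  have hU : sSup (Set.range (fun g => cj g D)) = H := by
    have hcv := cvx_sSup hfamc hfamne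
    have hn : (sSup (Set.range (fun g => cj g D))).Normal := by
      constructor
      intro x hx k
      rw [mem_sSup_cvx hfamc hfamne] at *
      obtain ⟨_, ⟨g, rfl⟩, hx⟩ := hx
      refine ⟨_, ⟨g * k⁻¹, rfl⟩, ?_⟩
      simp only [mem_cj] at *
      rwa [show g * k⁻¹ * (k * x * k⁻¹) * (g * k⁻¹)⁻¹ = g * x * g⁻¹ by group]
    have hDU : D ≤ sSup (Set.range (fun g => cj g D)) := le_sSup ⟨1, cj_one D⟩
    have hUH : sSup (Set.range (fun g => cj g D)) ≤ H := by
      apply sSup_le
      rintro _ ⟨g, rfl⟩; exact hcjH g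
    rcases huniq _ hn (cone_of_cvx hn hcv) with h | h | h
    · exfalso
      apply hDbot
      rw [eq_bot_iff, ← h]; exact hDU
    · exact h
    · exfalso
      apply hnt
      rw [eq_top_iff, ← h]; exact hUH
  have hI : ∀ x, (∀ g, x ∈ cj g D) → x = 1 := by
    have hcv : Cvx (⨅ g, cj g D) := by
      intro x y h1 h2 h3
      rw [Subgroup.mem_iInf] at *
      intro g
      exact cvx_cj hDc x y h1 h2 (h3 g)
    have hn : (⨅ g, cj g D).Normal := by
      constructor
      intro x hx k
      rw [Subgroup.mem_iInf] at *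
      intro g
      have := hx (g * k)
      rw [mem_cj] at *
      rwa [show g * (k * x * k⁻¹) * g⁻¹ = g * k * x * (g * k)⁻¹ by group]
    have hle : (⨅ g, cj g D) ≤ D := by
      refine (iInf_le _ 1).trans ?_
      rw [cj_one]
    rcases huniq _ hn (cone_of_cvx hn hcv) with h | h | h
    · intro x hx
      rw [← Subgroup.mem_bot, ← h, Subgroup.mem_iInf]
      exact hx
    · exfalso
      apply hDH
      exact le_antisymm hDle (h ▸ hle)
    · exfalso
      apply hnt
      rw [eq_top_iff, ← h]; exact hle.trans hDle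
  have S : Stp H D :=
    { hH := hH
      hHc := hHc
      hne := hne
      hnt := hnt
      hGH := fun a b => hCH (comm_mem a b)
      huniq := huniq
      hDc := hDc
      hDH := hDHfix
      hU := by
        intro h hh
        rw [← hU, mem_sSup_cvx hfamc hfamne] at hh
        obtain ⟨_, ⟨g, rfl⟩, hg⟩ := hh
        exact ⟨g, hg⟩
      hI := hI }
  have hNH : ∀ X : Subgroup G, (∃ P, RelCone (NN H X) P) → X.Normal →
      derivedSeries G 2 ≤ NN H X → NN H X = H := by
    intro X hX hXn hAX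
    rcases huniq _ (NN_normal hH hXn) hX with h | h | h
    · exfalso
      apply h2
      rw [eq_bot_iff, ← h]; exact hAX
    · exact h
    · exfalso
      apply hnt
      rw [eq_top_iff, ← h]
      intro x hx; exact hx.1
  -- first application
  have hNA : NN H (derivedSeries G 2) = H := by
    refine hNH _ (S.cone_NN hA hAH ?_) hA ?_
    · exact step_A S hA hAH hAab (fun x hx y hy => comm2_mem hx hy) hiso hCH
    · intro a ha
      exact mem_NN.mpr ⟨hAH ha, fun x hx => hAab a ha x hx⟩
  -- `A` is central in `H`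
  have hAZ : derivedSeries G 2 ≤ NN H H := by
    intro a ha
    refine mem_NN.mpr ⟨hAH ha, fun x hx => ?_⟩
    rw [← hNA] at hx
    exact ((mem_NN.mp hx).2 a ha).symm
  have hw : ∀ q ∈ H, ∀ w ∈ commutator G, w * q * w⁻¹ * q⁻¹ ∈ NN H H := by
    intro q hq w hw
    obtain ⟨n, hn, hC⟩ := hiso q hq
    exact root_centre hq (hCH hw) hn (hAZ (comm2_mem hw hC))
  have hall : ∀ y ∈ H, ∀ q ∈ H, y * q * y⁻¹ * q⁻¹ ∈ NN H H := by
    intro y hy q hq
    obtain ⟨n, hn, hC⟩ := hiso q hq
    refine root_centre hq hy hn ?_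
    have := (NN H H).inv_mem (hw y hy _ hC)
    rwa [show (q ^ n * y * (q ^ n)⁻¹ * y⁻¹)⁻¹ = y * q ^ n * y⁻¹ * (q ^ n)⁻¹ by group] at this
  have hNHH : NN H H = H := hNH H (S.cone_NN hH le_rfl hall) hH hAZ
  apply hnab
  intro x hx y hy
  rw [← hNHH] at hx
  exact (mem_NN.mp hx).2 y hy

end ord

/-! ### From relations to orders -/

section final

variable {G : Type u} [Group G]

/-- the linear order given by a bi-invariant total order -/
@[reducible] noncomputable def IsBiOrder.lin {r : G → G → Prop} (hr : IsBiOrder r) : LinearOrder G where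
  le := r
  le_refl := hr.refl
  le_trans := hr.trans
  le_antisymm := hr.antisymm
  le_total := hr.total
  toDecidableLE := Classical.decRel _

lemma isBiOrder_of_cone {P : Set G} (hP : RelCone (⊥ : Subgroup G) P) :
    IsBiOrder (fun a b : G => a = b ∨ a⁻¹ * b ∈ P) where
  refl a := Or.inl rfl
  trans a b c := by
    rintro (rfl | h1) (rfl | h2)
    · exact Or.inl rfl
    · exact Or.inr h2
    · exact Or.inr h1
    · right
      have := hP.mul _ h1 _ h2
      rwa [show a⁻¹ * b * (b⁻¹ * c) = a⁻¹ * c by group] at this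
  antisymm a b := by
    rintro (rfl | h1) (h2 | h2)
    · rfl
    · rfl
    · exact h2.symm
    · exfalso
      apply hP.asym _ h1
      rwa [show (a⁻¹ * b)⁻¹ = b⁻¹ * a by group]
  total a b := by
    rcases hP.tri (a⁻¹ * b) with h | h | h
    · left; left
      rw [Subgroup.mem_bot, inv_mul_eq_one] at h
      exact h
    · left; right; exact h
    · right; right
      rwa [show (a⁻¹ * b)⁻¹ = b⁻¹ * a by group] at h
  mul_left a b c := by
    rintro (rfl | h)
    · exact Or.inl rfl
    · right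
      rwa [show (c * a)⁻¹ * (c * b) = a⁻¹ * b by group]
  mul_right a b c := by
    rintro (rfl | h)
    · exact Or.inl rfl
    · right
      have := hP.conj _ h c⁻¹
      rwa [show c⁻¹ * (a⁻¹ * b) * c⁻¹⁻¹ = (a * c)⁻¹ * (b * c) by group] at this

lemma cone_of_convex {H : Subgroup G} (hH : H.Normal) {r : G → G → Prop} (hr : IsBiOrder r)
    (hc : ∀ h₁ ∈ H, ∀ h₂ ∈ H, ∀ g : G, r h₁ g → r g h₂ → g ∈ H) :
    RelCone H {x | r 1 x ∧ x ∉ H} where
  mul := by
    rintro a ⟨ha, ha'⟩ b ⟨hb, hb'⟩
    have h1 : r a (a * b) := by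
      have := hr.mul_left _ _ a hb
      rwa [mul_one] at this
    refine ⟨hr.trans _ _ _ ha h1, fun hab => ha' ?_⟩
    exact hc 1 H.one_mem _ hab a ha h1
  conj := by
    rintro a ⟨ha, ha'⟩ g
    refine ⟨?_, fun h => ha' ?_⟩
    · have := hr.mul_right _ _ g⁻¹ (hr.mul_left _ _ g ha)
      rwa [mul_one, mul_inv_cancel] at this
    · have := hH.conj_mem _ h g⁻¹
      rwa [show g⁻¹ * (g * a * g⁻¹) * g⁻¹⁻¹ = a by group] at this
  tri := by
    intro a
    by_cases ha : a ∈ H
    · exact Or.inl ha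
    · right
      rcases hr.total 1 a with h | h
      · left; exact ⟨h, ha⟩
      · right
        refine ⟨?_, fun h' => ha (by simpa using H.inv_mem h')⟩
        have := hr.mul_left _ _ a⁻¹ h
        rwa [inv_mul_cancel, mul_one] at this
  asym := by
    rintro a ⟨ha, ha'⟩ ⟨hb, hb'⟩
    have : r a 1 := by
      have := hr.mul_left _ _ a hb
      rwa [mul_one, mul_inv_cancel] at this
    have h1 := hr.antisymm _ _ ha this
    exact ha' (h1 ▸ H.one_mem)
  nmem := fun a ha => ha.2

/-- A normal subgroup with orderable quotient is relatively convex. -/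
lemma relConvex_of_cone {N : Subgroup G} {P : Set G} (hP : RelCone N P) {r : G → G → Prop}
    (hr : IsBiOrder r) (hN : N.Normal) : RelativelyConvex N := by
  have hcone : RelCone (⊥ : Subgroup G) {x | x ∈ P ∨ (x ∈ N ∧ r 1 x ∧ x ≠ 1)} := by
    have hmulN : ∀ a ∈ P, ∀ k ∈ N, a * k ∈ P ∧ k * a ∈ P := by
      intro a ha k hk
      refine ⟨hP.absorb ha hk, ?_⟩
      have h1 := hP.absorb ha (hN.conj_mem k hk a⁻¹)
      rwa [show a * (a⁻¹ * k * a⁻¹⁻¹) = k * a by group] at h1
    have h1r : ∀ a b, r 1 a → r 1 b → r 1 (a * b) := by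
      intro a b ha hb
      have := hr.mul_left _ _ a hb
      rw [mul_one] at this
      exact hr.trans _ _ _ ha this
    have hne : ∀ a b, r 1 a → r 1 b → a ≠ 1 → a * b ≠ 1 := by
      intro a b ha hb hne h
      apply hne
      apply hr.antisymm _ _ _ ha
      have := hr.mul_left _ _ a hb
      rwa [mul_one, h] at this
    refine ⟨?_, ?_, ?_, ?_, ?_⟩
    · rintro a (ha | ⟨ha, ha1, ha2⟩) b (hb | ⟨hb, hb1, hb2⟩)
      · exact Or.inl (hP.mul a ha b hb)
      · exact Or.inl (hmulN a ha b hb).1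
      · exact Or.inl (hmulN b hb a ha).2
      · exact Or.inr ⟨N.mul_mem ha hb, h1r a b ha1 hb1, hne a b ha1 hb1 ha2⟩
    · rintro a (ha | ⟨ha, ha1, ha2⟩) g
      · exact Or.inl (hP.conj a ha g)
      · refine Or.inr ⟨hN.conj_mem a ha g, ?_, ?_⟩
        · have := hr.mul_right _ _ g⁻¹ (hr.mul_left _ _ g ha1)
          rwa [mul_one, mul_inv_cancel] at this
        · intro h
          apply ha2
          rwa [conj_eq_one_iff] at h
    · intro a
      by_cases h1 : a = 1
      · left; rwa [Subgroup.mem_bot]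
      · right
        rcases hP.tri a with h | h | h
        · rcases hr.total 1 a with h2 | h2
          · left; right; exact ⟨h, h2, h1⟩
          · right; right
            refine ⟨N.inv_mem h, ?_, by simpa using h1⟩
            have := hr.mul_left _ _ a⁻¹ h2
            rwa [inv_mul_cancel, mul_one] at this
        · left; left; exact h
        · right; left; exact h
    · rintro a (ha | ⟨ha, ha1, ha2⟩) (hb | ⟨hb, hb1, hb2⟩)
      · exact hP.asym a ha hb
      · exact hP.nmem a ha (by simpa using N.inv_mem hb)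
      · exact hP.nmem _ hb (N.inv_mem ha)
      · exact hne a a⁻¹ ha1 hb1 ha2 (mul_inv_cancel a)
    · rintro a (ha | ⟨ha, ha1, ha2⟩) h
      · rw [Subgroup.mem_bot] at h
        rw [h] at ha
        exact hP.nmem _ ha N.one_mem
      · rw [Subgroup.mem_bot] at h
        exact ha2 h
  refine ⟨_, isBiOrder_of_cone hcone, ?_⟩
  intro h₁ hh₁ h₂ hh₂ g hg₁ hg₂
  rcases hg₁ with rfl | (h | ⟨h, -⟩)
  · exact hh₁
  · rcases hg₂ with rfl | (h' | ⟨h', -⟩)
    · exact hh₂
    · exfalso
      have := hP.mul _ h _ h'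
      rw [show h₁⁻¹ * g * (g⁻¹ * h₂) = h₁⁻¹ * h₂ by group] at this
      exact hP.nmem _ this (N.mul_mem (N.inv_mem hh₁) hh₂)
    · have := N.mul_mem h' (N.inv_mem hh₂)
      rw [mul_inv_cancel_right] at this
      simpa using N.inv_mem this
  · have := N.mul_mem hh₁ h
    rwa [mul_inv_cancel_left] at this

end final

/-- There is no linearly orderable soluble group of derived length exactly `3` with exactly one
proper normal relatively convex subgroup. -/
theorem result : ¬ ∃ (G : Type u) (_ : Group G),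
    LinearlyOrderable G ∧ derivedSeries G 3 = ⊥ ∧ derivedSeries G 2 ≠ ⊥ ∧
      ∃! H : Subgroup G, H ≠ ⊥ ∧ H ≠ ⊤ ∧ H.Normal ∧ RelativelyConvex H := by
  rintro ⟨G, _, -, h3, h2, H, ⟨hne, hnt, hH, r, hr, hc⟩, huniq⟩
  have hu : ∀ N : Subgroup G, N.Normal → (∃ P, RelCone N P) → N = ⊥ ∨ N = H ∨ N = ⊤ := by
    rintro N hN ⟨P, hP⟩
    by_cases h1 : N = ⊥
    · exact Or.inl h1
    · by_cases h4 : N = ⊤
      · exact Or.inr (Or.inr h4)
      · exact Or.inr (Or.inl (huniq N ⟨h1, h4, hN, relConvex_of_cone hP hr hN⟩))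
  have hHcone := cone_of_convex hH hr hc
  -- the quotient by `H` is abelian
  have hCH : commutator G ≤ H := by
    have hq := isBiOrder_of_cone hHcone.quotient
    letI : LinearOrder (G ⧸ H) := hq.lin
    haveI : MulLeftMono (G ⧸ H) := ⟨fun c a b h => hq.mul_left a b c h⟩
    haveI : MulRightMono (G ⧸ H) := ⟨fun c a b h => hq.mul_right a b c h⟩
    have hsurj := QuotientGroup.mk'_surjective H
    have h1 : commutator (G ⧸ H) = ⊥ := by
      apply comm_of_simple
      · rintro N hN ⟨P, hP⟩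
        have h5 := hu (N.comap (QuotientGroup.mk' H)) (hN.comap _) ⟨_, hP.comap _⟩
        have hle : H ≤ N.comap (QuotientGroup.mk' H) := by
          intro x hx
          rw [Subgroup.mem_comap]
          have : QuotientGroup.mk' H x = 1 := (QuotientGroup.eq_one_iff x).mpr hx
          rw [this]; exact N.one_mem
        rcases h5 with h | h | h
        · exfalso
          apply hne
          rw [eq_bot_iff, ← h]; exact hle
        · left
          rw [eq_bot_iff]
          intro y hy
          obtain ⟨x, rfl⟩ := hsurj y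
          have : x ∈ H := by rw [← h]; exact hy
          rw [Subgroup.mem_bot]
          exact (QuotientGroup.eq_one_iff x).mpr this
        · right
          rw [eq_top_iff]
          intro y _
          obtain ⟨x, rfl⟩ := hsurj y
          have : x ∈ N.comap (QuotientGroup.mk' H) := by rw [h]; exact Subgroup.mem_top x
          exact this
      · rw [← map_derivedSeries_eq hsurj, h3, Subgroup.map_bot]
    rw [← derivedSeries_one] at h1 ⊢
    intro x hx
    have h6 : QuotientGroup.mk' H x ∈ derivedSeries (G ⧸ H) 1 := by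
      rw [← map_derivedSeries_eq hsurj]
      exact ⟨x, hx, rfl⟩
    rw [h1, Subgroup.mem_bot] at h6
    exact (QuotientGroup.eq_one_iff x).mp h6
  letI : LinearOrder G := hr.lin
  haveI : MulLeftMono G := ⟨fun c a b h => hr.mul_left a b c h⟩
  haveI : MulRightMono G := ⟨fun c a b h => hr.mul_right a b c h⟩
  refine main_ord H hH ?_ hne hnt hCH hu h3 h2
  intro x y h1 h2 h3
  exact hc 1 H.one_mem y h3 x h1 h2

end Pool.Agent.Results.MP_b7123c_al.NoneInLengthThree
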