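import Pool.Agent.R804.OrdSol.Fin

/-! # MP_b7123c_al: no orderable soluble group of derived length 3 has exactly one proper normal
relatively convex subgroup

The definitions `IsBiOrder`, `LinearlyOrderable`, `RelativelyConvex` are in
`Pool.Agent.R804.OrdSol.Cone`. -/

set_option autoImplicit false
set_option linter.unusedSectionVars false

open scoped commutatorElement
open Pool.Agent.R804.OrdSol

namespace Pool.Agent.Results.MP_b7123c_al.NotOne

universe u

variable {G : Type u} [Group G]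

/-- the isolator of a normal subgroup with commutative quotient -/
def iso (M : Subgroup G) [M.Normal] (hM : ∀ x y : G, ⁅x, y⁆ ∈ M) : Subgroup G where
  carrier := {x | ∃ n : ℕ, n ≠ 0 ∧ x ^ n ∈ M}
  one_mem' := ⟨1, one_ne_zero, by simp⟩
  mul_mem' := by
    rintro x y ⟨n, hn, hx⟩ ⟨m, hm, hy⟩
    refine ⟨n * m, mul_ne_zero hn hm, ?_⟩
    have c : Commute (x : G ⧸ M) (y : G ⧸ M) := (mk_comm_iff M x y).mpr (hM x y)
    rw [← QuotientGroup.eq_one_iff] at hx hy ⊢
    rw [QuotientGroup.mk_pow] at hx hy ⊢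
    rw [QuotientGroup.mk_mul, c.mul_pow, pow_mul, hx, mul_comm n m, pow_mul, hy]
    simp
  inv_mem' := by
    rintro x ⟨n, hn, hx⟩
    exact ⟨n, hn, by rw [inv_pow]; exact M.inv_mem hx⟩

theorem le_iso (M : Subgroup G) [M.Normal] (hM : ∀ x y : G, ⁅x, y⁆ ∈ M) : M ≤ iso M hM :=
  fun x hx => ⟨1, one_ne_zero, by simpa using hx⟩

instance iso_normal (M : Subgroup G) [M.Normal] (hM : ∀ x y : G, ⁅x, y⁆ ∈ M) :
    (iso M hM).Normal := by
  refine ⟨?_⟩
  rintro x ⟨n, hn, hx⟩ g
  exact ⟨n, hn, by rw [conj_pow]; exact Subgroup.Normal.conj_mem inferInstance _ hx g⟩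

/-- the elements which are commensurable with `g` modulo `H` -/
def comm (H : Subgroup G) [H.Normal] (hH : ∀ x y : G, ⁅x, y⁆ ∈ H) (g : G) : Subgroup G where
  carrier := {x | ∃ (m : ℕ) (k : ℤ), m ≠ 0 ∧ x ^ m * (g ^ k)⁻¹ ∈ H}
  one_mem' := ⟨1, 0, one_ne_zero, by simp⟩
  mul_mem' := by
    rintro x y ⟨n, k, hn, hx⟩ ⟨m, l, hm, hy⟩
    refine ⟨n * m, k * m + l * n, mul_ne_zero hn hm, ?_⟩
    have c : Commute (x : G ⧸ H) (y : G ⧸ H) := (mk_comm_iff H x y).mpr (hH x y)
    rw [← QuotientGroup.eq_one_iff] at hx hy ⊢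
    rw [QuotientGroup.mk_mul, QuotientGroup.mk_inv, mul_inv_eq_one, QuotientGroup.mk_pow,
      QuotientGroup.mk_zpow] at hx hy ⊢
    rw [QuotientGroup.mk_mul, c.mul_pow, pow_mul, hx, mul_comm n m, pow_mul, hy, zpow_add,
      zpow_mul, zpow_mul, zpow_natCast, zpow_natCast]
  inv_mem' := by
    rintro x ⟨n, k, hn, hx⟩
    refine ⟨n, -k, hn, ?_⟩
    rw [← QuotientGroup.eq_one_iff] at hx ⊢
    rw [QuotientGroup.mk_mul, QuotientGroup.mk_inv, mul_inv_eq_one, QuotientGroup.mk_pow,
      QuotientGroup.mk_zpow] at hx ⊢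
    rw [QuotientGroup.mk_inv, inv_pow, hx, zpow_neg]

theorem le_comm (H : Subgroup G) [H.Normal] (hH : ∀ x y : G, ⁅x, y⁆ ∈ H) (g : G) :
    H ≤ comm H hH g := fun x hx => ⟨1, 0, one_ne_zero, by simpa using hx⟩

instance comm_normal (H : Subgroup G) [H.Normal] (hH : ∀ x y : G, ⁅x, y⁆ ∈ H) (g : G) :
    (comm H hH g).Normal := by
  refine ⟨fun x hx k => ?_⟩
  have e : k * x * k⁻¹ = ⁅k, x⁆ * x := by rw [commutatorElement_def]; group
  rw [e]
  exact (comm H hH g).mul_mem (le_comm H hH g (hH k x)) hx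

/-- the linear order of a bi-invariant relation -/
@[reducible] noncomputable def linOrd {r : G → G → Prop} (hr : IsBiOrder r) : LinearOrder G where
  le := r
  le_refl := hr.refl
  le_trans := hr.trans
  le_antisymm := hr.antisymm
  le_total := hr.total
  toDecidableLE := Classical.decRel _

theorem comm_mem_one (x y : G) : ⁅x, y⁆ ∈ derivedSeries G 1 := by
  rw [derivedSeries_succ]
  exact Subgroup.commutator_mem_commutator (Subgroup.mem_top x) (Subgroup.mem_top y)

theorem comm_mem_two {x y : G} (hx : x ∈ derivedSeries G 1) (hy : y ∈ derivedSeries G 1) :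
    ⁅x, y⁆ ∈ derivedSeries G 2 := by
  rw [derivedSeries_succ]
  exact Subgroup.commutator_mem_commutator hx hy

theorem comm_of_three (h3 : derivedSeries G 3 = ⊥) {x y : G} (hx : x ∈ derivedSeries G 2)
    (hy : y ∈ derivedSeries G 2) : Commute x y := by
  have h : ⁅x, y⁆ ∈ derivedSeries G 3 := by
    rw [derivedSeries_succ]
    exact Subgroup.commutator_mem_commutator hx hy
  rw [h3, Subgroup.mem_bot, commutatorElement_eq_one_iff_commute] at h
  exact h

theorem two_eq_bot (h : ∀ x ∈ derivedSeries G 1, ∀ y ∈ derivedSeries G 1, Commute x y) :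
    derivedSeries G 2 = ⊥ := by
  rw [derivedSeries_succ, Subgroup.commutator_eq_bot_iff_le_centralizer]
  intro x hx
  rw [Subgroup.mem_centralizer_iff]
  intro y hy
  exact h y hy x hx

/-- the case of torsion abelianisation -/
theorem case_torsion {Q : Type u} [Group Q] [Nontrivial Q] {r : Q → Q → Prop} (hr : IsBiOrder r)
    (h3 : derivedSeries Q 3 = ⊥)
    (htors : ∀ x : Q, ∃ n : ℕ, n ≠ 0 ∧ x ^ n ∈ derivedSeries Q 1)
    (hN : ∀ N : Subgroup Q, N.Normal → (∃ P, RelCone N P) → N = ⊥ ∨ N = ⊤) : False := by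
  let _ : LinearOrder Q := linOrd hr
  have : MulLeftMono Q := ⟨fun c a b h => hr.mul_left a b c h⟩
  have : MulRightMono Q := ⟨fun c a b h => hr.mul_right a b c h⟩
  have hs : Setup (derivedSeries Q 2) (derivedSeries Q 1) ⊤ :=
    ⟨derivedSeries_antitone Q (by norm_num), le_top, fun x hx y hy => comm_mem_two hx hy,
      fun a ha b hb => comm_of_three h3 ha hb, comm_mem_one, fun x _ => htors x⟩
  have hcomm := torsion_case (derivedSeries Q 2) (derivedSeries Q 1) hs (by
    intro N hNn hNc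
    exact hN N hNn ⟨_, RelCone.of_convex hNn hr fun a ha b hb g h1 h2 => hNc a ha b hb g h1 h2⟩)
  have h1 : derivedSeries Q 1 = ⊥ := by
    rw [derivedSeries_succ, Subgroup.commutator_eq_bot_iff_le_centralizer]
    intro x _
    rw [Subgroup.mem_centralizer_iff]
    intro y _
    exact hcomm y x
  obtain ⟨x, hx⟩ := exists_ne (1 : Q)
  obtain ⟨n, hn, hxn⟩ := htors x
  rw [h1, Subgroup.mem_bot] at hxn
  exact hx (eq_one_of_pow hn hxn)

theorem relCone_quotient {K : Subgroup G} [K.Normal] {P : Set G} (hP : RelCone K P) :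
    RelCone (⊥ : Subgroup (G ⧸ K)) ((QuotientGroup.mk' K) '' P) where
  mul := by
    rintro _ ⟨a, ha, rfl⟩ _ ⟨b, hb, rfl⟩
    exact ⟨a * b, hP.mul _ ha _ hb, map_mul _ _ _⟩
  conj := by
    rintro _ ⟨a, ha, rfl⟩ g
    obtain ⟨g, rfl⟩ := QuotientGroup.mk'_surjective K g
    exact ⟨g * a * g⁻¹, hP.conj _ ha g, by simp only [map_mul, map_inv]⟩
  tri := by
    intro x
    obtain ⟨x, rfl⟩ := QuotientGroup.mk'_surjective K x
    rcases hP.tri x with h | h | h
    · left
      rw [Subgroup.mem_bot]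
      exact (QuotientGroup.eq_one_iff x).mpr h
    · right; left; exact ⟨x, h, rfl⟩
    · right; right; exact ⟨x⁻¹, h, map_inv _ _⟩
  nmem := by
    rintro _ ⟨a, ha, rfl⟩ h
    rw [Subgroup.mem_bot] at h
    exact hP.nmem _ ha ((QuotientGroup.eq_one_iff _).mp h)

theorem relCone_comap {G' : Type u} [Group G'] (f : G →* G') {N : Subgroup G'} {P : Set G'}
    (hP : RelCone N P) : RelCone (N.comap f) (f ⁻¹' P) where
  mul a ha b hb := by
    show f (a * b) ∈ P
    rw [map_mul]; exact hP.mul _ ha _ hb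
  conj a ha g := by
    show f (g * a * g⁻¹) ∈ P
    rw [map_mul, map_mul, map_inv]; exact hP.conj _ ha _
  tri a := by
    rcases hP.tri (f a) with h | h | h
    · exact Or.inl h
    · exact Or.inr (Or.inl h)
    · right; right
      show f a⁻¹ ∈ P
      rw [map_inv]; exact h
  nmem a ha h := hP.nmem _ ha h

/-- A soluble group of derived length exactly `3` which admits a bi-invariant total order does not
have exactly one proper normal relatively convex subgroup. -/
theorem result (G : Type u) [Group G] (hG : LinearlyOrderable G) (h3 : derivedSeries G 3 = ⊥)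
    (h2 : derivedSeries G 2 ≠ ⊥) :
    ¬ ∃! H : Subgroup G, H ≠ ⊥ ∧ H ≠ ⊤ ∧ H.Normal ∧ RelativelyConvex H := by
  rintro ⟨H, ⟨hHb, hHt, hHn, hHc⟩, huniq⟩
  have hkey : ∀ N : Subgroup G, N.Normal → RelativelyConvex N → N = ⊥ ∨ N = H ∨ N = ⊤ := by
    intro N h1 h2
    by_cases hb : N = ⊥
    · exact Or.inl hb
    by_cases ht : N = ⊤
    · exact Or.inr (Or.inr ht)
    exact Or.inr (Or.inl (huniq N ⟨hb, ht, h1, h2⟩))
  have hkey' : ∀ N : Subgroup G, N.Normal → (∃ P, RelCone N P) → N = ⊥ ∨ N = H ∨ N = ⊤ := by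
    rintro N h1 ⟨P, hP⟩
    exact hkey N h1 (hP.relativelyConvex h1 hG)
  obtain ⟨rH, hrH, hcH⟩ := hHc
  have hPH := RelCone.of_convex hHn hrH hcH
  have hM := comm_mem_one (G := G)
  have hcone := relCone_of_torsionFree (iso (derivedSeries G 1) hM)
    (fun x y => le_iso _ hM (hM x y)) (by
      rintro x n hn ⟨m, hm, h⟩
      exact ⟨n * m, mul_ne_zero hn hm, by rw [pow_mul]; exact h⟩)
  rcases hkey' _ inferInstance hcone with hI | hI | hI
  · -- the isolator is not trivial
    apply h2
    have h4 : derivedSeries G 1 = ⊥ := by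
      rw [eq_bot_iff, ← hI]
      exact le_iso _ hM
    rw [derivedSeries_succ, h4, Subgroup.commutator_bot_left]
  · -- the main case
    have hHM : ∀ x ∈ H, ∃ n : ℕ, n ≠ 0 ∧ x ^ n ∈ derivedSeries G 1 := by
      intro x hx
      rw [← hI] at hx
      exact hx
    have hMH : derivedSeries G 1 ≤ H := by
      rw [← hI]
      exact le_iso _ hM
    have hGH : ∀ x y : G, ⁅x, y⁆ ∈ H := fun x y => hMH (hM x y)
    have hHtf : ∀ (x : G) (n : ℕ), n ≠ 0 → x ^ n ∈ H → x ∈ H := by
      intro x n hn h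
      rw [← hI] at h ⊢
      obtain ⟨m, hm, h⟩ := h
      exact ⟨n * m, mul_ne_zero hn hm, by rw [pow_mul]; exact h⟩
    have hrank : ∀ g : G, g ∉ H → ∀ g' : G, ∃ (m : ℕ) (k : ℤ), m ≠ 0 ∧ g' ^ m * (g ^ k)⁻¹ ∈ H := by
      intro g hg g'
      have hc := relCone_of_torsionFree (comm H hGH g) (fun x y => le_comm H hGH g (hGH x y)) (by
        rintro x n hn ⟨m, k, hm, h⟩
        exact ⟨n * m, k, mul_ne_zero hn hm, by rw [pow_mul]; exact h⟩)
      have hgc : g ∈ comm H hGH g := ⟨1, 1, one_ne_zero, by simp⟩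
      rcases hkey' _ inferInstance hc with h | h | h
      · rw [h, Subgroup.mem_bot] at hgc
        exact absurd (hgc ▸ H.one_mem) hg
      · rw [h] at hgc
        exact absurd hgc hg
      · have : g' ∈ comm H hGH g := by rw [h]; exact Subgroup.mem_top _
        exact this
    let _ : LinearOrder G := linOrd hrH
    have : MulLeftMono G := ⟨fun c a b h => hrH.mul_left a b c h⟩
    have : MulRightMono G := ⟨fun c a b h => hrH.mul_right a b c h⟩
    have hs : Setup (derivedSeries G 2) (derivedSeries G 1) H :=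
      ⟨derivedSeries_antitone G (by norm_num), hMH, fun x hx y hy => comm_mem_two hx hy,
        fun a ha b hb => comm_of_three h3 ha hb, hM, hHM⟩
    have hN : ∀ N : Subgroup G, N.Normal → Cvx N → N = ⊥ ∨ N = H ∨ N = ⊤ := by
      intro N h1 h2
      exact hkey N h1 ⟨rH, hrH, fun a ha b hb g h4 h5 => h2 a ha b hb g h4 h5⟩
    obtain ⟨P, hPs, hPm, hPc, hPt, hPn⟩ :=
      exists_cone_ZH (derivedSeries G 2) (derivedSeries G 1) H hs hN hrank
    have hZH : ZH (derivedSeries G 2) (derivedSeries G 1) H hs hN ≤ H := fun x hx => hx.1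
    have hZ := RelCone.combine hZH hPH hPs hPm hPc hPt hPn
    have hAZ : derivedSeries G 2 ≤ ZH (derivedSeries G 2) (derivedSeries G 1) H hs hN := by
      intro a ha
      refine ⟨hMH (hs.AM ha), fun z _ => ⟨1, 1, one_ne_zero, ?_, Le.one z⟩⟩
      rw [pow_one, (QuotientGroup.eq_one_iff a).mpr ha]
      rfl
    have hZeq : ZH (derivedSeries G 2) (derivedSeries G 1) H hs hN = H := by
      rcases hkey' _ inferInstance ⟨_, hZ⟩ with h | h | h
      · rw [h] at hAZ
        exact absurd (le_bot_iff.mp hAZ) h2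
      · exact h
      · rw [h] at hZH
        exact absurd (top_le_iff.mp hZH) hHt
    apply h2
    apply two_eq_bot
    refine comm_of_app (A := derivedSeries G 2) (derivedSeries G 1) hs.MA hs.A_comm ?_
    intro x hx z hz
    have : x ∈ ZH (derivedSeries G 2) (derivedSeries G 1) H hs hN := by
      rw [hZeq]
      exact hMH hx
    exact this.2 z hz
  · -- torsion abelianisation
    have hQ := relCone_quotient hPH
    have : Nontrivial (G ⧸ H) := by
      rw [QuotientGroup.nontrivial_iff]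
      exact hHt
    refine case_torsion hQ.isBiOrder ?_ ?_ ?_
    · have := map_derivedSeries_eq (QuotientGroup.mk'_surjective H) 3
      rw [h3, Subgroup.map_bot] at this
      exact this.symm
    · intro q
      obtain ⟨x, rfl⟩ := QuotientGroup.mk'_surjective H q
      have hx : x ∈ iso (derivedSeries G 1) hM := by rw [hI]; exact Subgroup.mem_top x
      obtain ⟨n, hn, h⟩ := hx
      refine ⟨n, hn, ?_⟩
      rw [← map_pow, ← map_derivedSeries_eq (QuotientGroup.mk'_surjective H) 1]
      exact ⟨_, h, rfl⟩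
    · rintro N hNn ⟨P, hP⟩
      have h4 := relCone_comap (QuotientGroup.mk' H) hP
      have h5 : H ≤ N.comap (QuotientGroup.mk' H) := by
        intro x hx
        show (QuotientGroup.mk' H) x ∈ N
        rw [show (QuotientGroup.mk' H) x = 1 from (QuotientGroup.eq_one_iff x).mpr hx]
        exact N.one_mem
      rcases hkey' _ (hNn.comap _) ⟨_, h4⟩ with h | h | h
      · rw [h] at h5
        exact absurd (le_bot_iff.mp h5) hHb
      · left
        rw [eq_bot_iff]
        intro q hq
        obtain ⟨x, rfl⟩ := QuotientGroup.mk'_surjective H q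
        have hx : x ∈ N.comap (QuotientGroup.mk' H) := hq
        rw [h] at hx
        rw [Subgroup.mem_bot]
        exact (QuotientGroup.eq_one_iff x).mpr hx
      · right
        rw [eq_top_iff]
        intro q _
        obtain ⟨x, rfl⟩ := QuotientGroup.mk'_surjective H q
        have hx : x ∈ N.comap (QuotientGroup.mk' H) := by rw [h]; exact Subgroup.mem_top x
        exact hx

end Pool.Agent.Results.MP_b7123c_al.NotOne
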